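import Pool.Agent.Helper91.GU.StE

/-!
# Project GU (MP_b1e6de_al), module E2b: the element `ε`
-/

set_option autoImplicit false

namespace Pool.Agent.Helper29.GU

universe u

open Polynomial Pool.Agent.Helper91.GU

private theorem Phi_C {L : Type u} [CommRing L] (I : Ideal L[X]) (b : L) :
    Phi I (C b) = C (Ideal.Quotient.mk I (C b)) := by
  unfold Phi
  simp

private theorem Phi_X {L : Type u} [CommRing L] (I : Ideal L[X]) :
    Phi I X = C (Ideal.Quotient.mk I X) * X := by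
  unfold Phi
  simp

private theorem Phi_mon {L : Type u} [CommRing L] {I : Ideal L[X]} {k₀ : ℕ} {a : ℕ → L}
    (h : YK I k₀ a) (m : ℕ) (hm : k₀ ≤ m) : Phi I (C (a m) * X ^ m) = X ^ m := by
  have h1 : Ideal.Quotient.mk I (C (a m) * X ^ m) = 1 := by
    have h2 := Ideal.Quotient.eq_zero_iff_mem.mpr (h m hm)
    rw [map_sub, map_one, sub_eq_zero] at h2
    exact h2.symm
  have h3 : (C (Ideal.Quotient.mk I X) * X : (L[X] ⧸ I)[X]) ^ m =
      C (Ideal.Quotient.mk I (X ^ m)) * X ^ m := by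
    rw [map_pow, C_pow]
    exact mul_pow (C (Ideal.Quotient.mk I X)) (X : (L[X] ⧸ I)[X]) m
  rw [map_mul, map_pow, Phi_C, Phi_X, h3, ← mul_assoc, ← C_mul, ← map_mul, h1, C_1, one_mul]

/-- E2b. -/
theorem hE2b (hE0 : StE0.{u}) (hE2a : StE2a.{u}) : StE2b.{u} := by
  intro L _ I k₀ a hY k hk hk1 κ hκ ε
  have hκC : (C κ : L[X]) * (k : L[X]) = 1 := by
    have : (C κ : L[X]) * C (k : L) = 1 := by rw [← C_mul, hκ, C_1]
    rwa [C_eq_natCast] at this
  constructor
  · have e : 1 - ε = C κ * ∑ i ∈ Finset.range k, (1 - C (a (k + i)) * X ^ (k + i)) := by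
      rw [Finset.sum_sub_distrib, Finset.sum_const, Finset.card_range, nsmul_eq_mul, mul_one, mul_sub, hκC]
    rw [e]
    exact I.mul_mem_left _ (sum_mem fun i _ => hY (k + i) (hk.trans (Nat.le_add_right k i)))
  · intro w hw
    obtain ⟨-, h1, -⟩ := hE0 L I k₀ a hY
    have hroot : IsRoot (Phi I w) 1 := by
      rw [IsRoot.def, h1 w]
      exact Ideal.Quotient.eq_zero_iff_mem.mpr hw
    obtain ⟨w', hw'⟩ := dvd_iff_isRoot.mpr hroot
    rw [C_1] at hw'
    have hε : Phi I ε = C (Ideal.Quotient.mk I (C κ)) * (X ^ k * ∑ i ∈ Finset.range k, X ^ i) := by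
      have : ε = C κ * ∑ i ∈ Finset.range k, C (a (k + i)) * X ^ (k + i) := rfl
      rw [this, map_mul, Phi_C, map_sum, Finset.mul_sum (s := Finset.range k) (a := X ^ k)]
      congr 1
      refine Finset.sum_congr rfl fun i _ => ?_
      rw [Phi_mon hY (k + i) (hk.trans (Nat.le_add_right k i)), pow_add]
    have hγ : Phi I (1 - C (a k) * X ^ k) = 1 - X ^ k := by
      rw [map_sub, map_one, Phi_mon hY k hk]
    apply hE2a L I k₀ a hY k hk hk1 (ε * w)
    rw [hγ, map_mul, hε, hw']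
    refine ⟨-(C (Ideal.Quotient.mk I (C κ)) * X ^ k * w'), ?_⟩
    have hg : (∑ i ∈ Finset.range k, (X : (L[X] ⧸ I)[X]) ^ i) * (X - 1) = X ^ k - 1 := geom_sum_mul X k
    calc C (Ideal.Quotient.mk I (C κ)) * (X ^ k * ∑ i ∈ Finset.range k, (X : (L[X] ⧸ I)[X]) ^ i) * ((X - 1) * w')
        = C (Ideal.Quotient.mk I (C κ)) * X ^ k * ((∑ i ∈ Finset.range k, (X : (L[X] ⧸ I)[X]) ^ i) * (X - 1)) * w' := by
          ring
      _ = (1 - X ^ k) * -(C (Ideal.Quotient.mk I (C κ)) * X ^ k * w') := by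
          rw [hg]; ring

end Pool.Agent.Helper29.GU
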